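import Mathlib
import Pool.Agent.H798.BV.Stm5

set_option autoImplicit false

/-!
# (G1A): the Mills type function is entire, with the expected derivatives
-/

namespace Pool.Agent.H407.BV

open Pool.Agent.H798.BV MeasureTheory Set

/-- the integrand of the `n`-th derivative -/
noncomputable def phi (n : ℕ) (s : ℂ) (x : ℝ) : ℂ :=
  (-(x : ℂ)) ^ n * Complex.exp (-((x : ℂ) * s) - (x : ℂ) ^ 2 / 2)

lemma phi_cont (n : ℕ) (s : ℂ) : Continuous (phi n s) := by
  unfold phi; fun_prop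

lemma norm_phi (n : ℕ) (s : ℂ) (x : ℝ) :
    ‖phi n s x‖ = |x| ^ n * Real.exp (-(x * s.re) - x ^ 2 / 2) := by
  unfold phi
  rw [norm_mul, norm_pow, norm_neg, Complex.norm_real, Real.norm_eq_abs, Complex.norm_exp]
  have h : (-((x : ℂ) * s) - (x : ℂ) ^ 2 / 2).re = -(x * s.re) - x ^ 2 / 2 := by
    have h1 : -((x : ℂ) * s) - (x : ℂ) ^ 2 / 2 = -((x : ℂ) * s) - ((x ^ 2 / 2 : ℝ) : ℂ) := by
      push_cast; ring
    rw [h1, Complex.sub_re, Complex.neg_re, Complex.re_ofReal_mul, Complex.ofReal_re]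
  rw [h]

/-- the dominating function -/
noncomputable def bd (n : ℕ) (R : ℝ) (x : ℝ) : ℝ :=
  Real.exp (R ^ 2) * (x ^ (n : ℝ) * Real.exp (-(1 / 4) * x ^ 2))

lemma bd_int (n : ℕ) (R : ℝ) : Integrable (bd n R) (volume.restrict (Ioi 0)) := by
  unfold bd
  apply Integrable.const_mul
  have h := integrableOn_rpow_mul_exp_neg_mul_sq (b := 1 / 4) (by norm_num) (s := (n : ℝ))
    (by have : (0 : ℝ) ≤ n := Nat.cast_nonneg n
        linarith)
  exact h

lemma phi_le (n : ℕ) (R : ℝ) (s : ℂ) (hs : ‖s‖ ≤ R) (x : ℝ) (hx : 0 < x) :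
    ‖phi n s x‖ ≤ bd n R x := by
  rw [norm_phi, abs_of_pos hx]
  unfold bd
  rw [Real.rpow_natCast]
  have h1 : -(x * s.re) - x ^ 2 / 2 ≤ R ^ 2 + (-(1 / 4) * x ^ 2) := by
    have h2 : |s.re| ≤ R := (Complex.abs_re_le_norm s).trans hs
    have h3 : -R ≤ s.re := (abs_le.mp h2).1
    nlinarith [mul_le_mul_of_nonneg_left h3 hx.le, sq_nonneg (x / 2 - R)]
  calc x ^ n * Real.exp (-(x * s.re) - x ^ 2 / 2)
      ≤ x ^ n * Real.exp (R ^ 2 + (-(1 / 4) * x ^ 2)) :=
        mul_le_mul_of_nonneg_left (Real.exp_le_exp.mpr h1) (pow_nonneg hx.le n)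
    _ = Real.exp (R ^ 2) * (x ^ n * Real.exp (-(1 / 4) * x ^ 2)) := by
        rw [Real.exp_add]; ring

lemma phi_int (n : ℕ) (s : ℂ) : Integrable (phi n s) (volume.restrict (Ioi 0)) := by
  apply Integrable.mono' (bd_int n ‖s‖) (phi_cont n s).aestronglyMeasurable
  rw [ae_restrict_iff' measurableSet_Ioi]
  exact Filter.Eventually.of_forall fun x hx => phi_le n ‖s‖ s le_rfl x hx

lemma phi_deriv (n : ℕ) (s : ℂ) (x : ℝ) :
    HasDerivAt (fun s => phi n s x) (phi (n + 1) s x) s := by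
  unfold phi
  have h1 : HasDerivAt (fun s : ℂ => -((x : ℂ) * s) - (x : ℂ) ^ 2 / 2) (-((x : ℂ) * 1)) s :=
    (((hasDerivAt_id s).const_mul (x : ℂ)).neg).sub_const _
  have h2 := (h1.cexp).const_mul ((-(x : ℂ)) ^ n)
  have h3 : (-(x : ℂ)) ^ n * (Complex.exp (-((x : ℂ) * s) - (x : ℂ) ^ 2 / 2) * -((x : ℂ) * 1)) =
      (-(x : ℂ)) ^ (n + 1) * Complex.exp (-((x : ℂ) * s) - (x : ℂ) ^ 2 / 2) := by
    rw [pow_succ]; ring
  rw [h3] at h2
  exact h2

/-- the `n`-th derivative -/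
noncomputable def H (n : ℕ) (s : ℂ) : ℂ := ∫ x in Ioi (0:ℝ), phi n s x

lemma H_deriv (n : ℕ) (s : ℂ) : HasDerivAt (H n) (H (n + 1) s) s := by
  have h := hasDerivAt_integral_of_dominated_loc_of_deriv_le (μ := volume.restrict (Ioi (0:ℝ)))
    (F := fun s x => phi n s x) (F' := fun s x => phi (n + 1) s x) (x₀ := s)
    (s := Metric.ball s 1) (bound := bd (n + 1) (‖s‖ + 1)) (Metric.ball_mem_nhds s one_pos)
    (Filter.Eventually.of_forall fun s => (phi_cont n s).aestronglyMeasurable)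
    (phi_int n s) (phi_cont (n + 1) s).aestronglyMeasurable
    (by
      rw [ae_restrict_iff' measurableSet_Ioi]
      refine Filter.Eventually.of_forall fun x hx t ht => ?_
      apply phi_le (n + 1) (‖s‖ + 1) t _ x hx
      have h1 : ‖t - s‖ < 1 := by
        rw [← dist_eq_norm]; exact ht
      have h2 : ‖t‖ ≤ ‖s‖ + ‖t - s‖ := by
        have h3 := norm_add_le s (t - s)
        rwa [add_sub_cancel] at h3
      linarith)
    (bd_int (n + 1) (‖s‖ + 1))
    (Filter.Eventually.of_forall fun x t _ => phi_deriv n t x)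
  exact h.2

lemma H_iter (n : ℕ) : iteratedDeriv n (H 0) = H n := by
  induction n with
  | zero => exact iteratedDeriv_zero
  | succ n ih =>
    rw [iteratedDeriv_succ, ih]
    funext s
    exact (H_deriv n s).deriv

lemma gG_eq : gG = H 0 := by
  funext s
  unfold gG H phi
  simp only [pow_zero, one_mul]

theorem t_G1A : S_G1A := by
  refine ⟨?_, fun n s => ?_⟩
  · rw [gG_eq]
    exact fun s => (H_deriv 0 s).differentiableAt
  · rw [gG_eq, H_iter]
    rfl

end Pool.Agent.H407.BV
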